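import Pool.Agent.W214.FD.Tools2

/-!
# FD-KEY: the main local estimate
-/

set_option autoImplicit false

open MeasureTheory Metric Set Filter
open scoped ENNReal NNReal Topology

namespace Pool.Agent.W214.FD

open Pool.Agent.W785.FD

universe u
variable {X : Type u} [MetricSpace X] [MeasurableSpace X] [BorelSpace X]

/-- comparison of balls -/
theorem ball_cmp (μ : Measure X) {D : ℝ} (hD : Dbl μ D) (x : X) {R s : ℝ} (hs : 0 < s) (m : ℕ)
    (hR : R = 2 ^ m * s) : μ (ball x R) ≤ ENNReal.ofReal (D ^ m) * μ (ball x s) := by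
  rw [hR]
  exact dbl_iter μ hD x s hs m

/-- `ofReal (R^p) * E / μ B_s ≤ D^m t` -/
theorem frac_le (μ : Measure X) {D : ℝ} (hD : Dbl μ D) (x : X) {R s : ℝ} (hs : 0 < s)
    (m : ℕ) (hR : R = 2 ^ m * s) {p : ℝ} {t E : ℝ≥0∞}
    (hE : ENNReal.ofReal (R ^ p) * E ≤ t * μ (ball x R)) {s' : ℝ} (hs' : s ≤ s') :
    ENNReal.ofReal (R ^ p) * E / μ (ball x s') ≤ ENNReal.ofReal (D ^ m) * t := by
  have hpos := hD.pos x s' (hs.trans_le hs')
  have hfin := hD.fin x s'
  rw [ENNReal.div_le_iff hpos.ne' hfin.ne]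
  refine hE.trans ?_
  have h1 := ball_cmp μ hD x hs m hR
  calc t * μ (ball x R) ≤ t * (ENNReal.ofReal (D ^ m) * μ (ball x s)) := by gcongr
    _ ≤ t * (ENNReal.ofReal (D ^ m) * μ (ball x s')) := by
        have : μ (ball x s) ≤ μ (ball x s') := measure_mono (ball_subset_ball hs')
        gcongr
    _ = ENNReal.ofReal (D ^ m) * t * μ (ball x s') := by ring

theorem mean_phi (μ : Measure X) {D : ℝ} (hD : Dbl μ D) {p : ℝ} (hp : 1 < p) {KS ε : ℝ}
    (hKS : 0 < KS) (hε0 : 0 < ε) (x : X) {R s : ℝ} (hs : 0 < s) (m : ℕ) (hR : R = 2 ^ m * s)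
    (hsR : 2 * s ≤ R / 8) {t E : ℝ≥0∞}
    (hE : ENNReal.ofReal (R ^ p) * E ≤ t * μ (ball x R)) (ht : t ≤ ENNReal.ofReal ε)
    (hε : 16 ^ p * (KS * (D ^ m * ε)) ≤ 1 / 16) {u phi : X → ℝ} {g0 : X → ℝ≥0∞}
    (u0 : ∀ y, 0 ≤ u y)
    (hg0 : ∫⁻ y, g0 y ^ p ∂μ ≤ E)
    (hSob : ∫⁻ y, (ENNReal.ofReal (u y)) ^ p ∂μ ≤
      ENNReal.ofReal (KS * (R / 2) ^ p) * ∫⁻ y, g0 y ^ p ∂μ)
    (hphi : Measurable phi) (p0 : ∀ y, 0 ≤ phi y) (p1 : ∀ y, phi y ≤ 1)
    (heq : ∀ y ∈ ball x (R / 2), phi y = u y) : mean μ phi x (2 * s) ≤ 1 / 8 := by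
  have hRpos : 0 < R := by linarith
  have h2s : 0 < 2 * s := by linarith
  have h1 : ENNReal.ofReal (mean μ phi x (2 * s)) =
      lav μ (fun y => ENNReal.ofReal (u y)) x (2 * s) := by
    rw [ofReal_mean μ hD phi hphi.aemeasurable p0 p1 x (2 * s) h2s]
    unfold lav
    congr 1
    refine setLIntegral_congr_fun measurableSet_ball fun y hy => ?_
    rw [heq y (ball_subset_ball (by linarith) hy)]
  have h2 := lav_small μ hD hp u u0 x (2 * s) h2s
  have h3 : (∫⁻ y, (ENNReal.ofReal (u y)) ^ p ∂μ) / μ (ball x (2 * s)) ≤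
      ENNReal.ofReal (KS * (D ^ m * ε)) := by
    have e1 : ∫⁻ y, (ENNReal.ofReal (u y)) ^ p ∂μ ≤
        ENNReal.ofReal KS * (ENNReal.ofReal (R ^ p) * E) := by
      refine hSob.trans ?_
      rw [ENNReal.ofReal_mul hKS.le, mul_assoc]
      have : (R / 2) ^ p ≤ R ^ p := Real.rpow_le_rpow (by linarith) (by linarith) (by linarith)
      gcongr
    calc (∫⁻ y, (ENNReal.ofReal (u y)) ^ p ∂μ) / μ (ball x (2 * s))
        ≤ ENNReal.ofReal KS * (ENNReal.ofReal (R ^ p) * E) / μ (ball x (2 * s)) :=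
          ENNReal.div_le_div_right e1 _
      _ = ENNReal.ofReal KS * (ENNReal.ofReal (R ^ p) * E / μ (ball x (2 * s))) := by
          rw [mul_div_assoc]
      _ ≤ ENNReal.ofReal KS * (ENNReal.ofReal (D ^ m) * t) := by
          have := frac_le μ hD x hs m hR hE (s' := 2 * s) (by linarith)
          gcongr
      _ ≤ ENNReal.ofReal KS * (ENNReal.ofReal (D ^ m) * ENNReal.ofReal ε) := by gcongr
      _ = ENNReal.ofReal (KS * (D ^ m * ε)) := by
          have : 0 ≤ D ^ m := pow_nonneg (by linarith [hD.one_le]) _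
          rw [ENNReal.ofReal_mul hKS.le, ENNReal.ofReal_mul this]
  have h4 : ENNReal.ofReal (mean μ phi x (2 * s)) ≤ ENNReal.ofReal (1 / 8) := by
    rw [h1]
    refine h2.trans ?_
    calc ENNReal.ofReal (1 / 16) + ENNReal.ofReal (16 ^ p) *
        ((∫⁻ y, (ENNReal.ofReal (u y)) ^ p ∂μ) / μ (ball x (2 * s)))
        ≤ ENNReal.ofReal (1 / 16) + ENNReal.ofReal (16 ^ p) *
          ENNReal.ofReal (KS * (D ^ m * ε)) := by gcongr
      _ = ENNReal.ofReal (1 / 16 + 16 ^ p * (KS * (D ^ m * ε))) := by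
          have : 0 ≤ D ^ m := pow_nonneg (by linarith [hD.one_le]) _
          rw [← ENNReal.ofReal_mul (by positivity), ← ENNReal.ofReal_add (by norm_num)
            (by positivity)]
      _ ≤ ENNReal.ofReal (1 / 8) := ENNReal.ofReal_le_ofReal (by linarith)
  exact (ENNReal.ofReal_le_ofReal_iff (by norm_num)).1 h4

/-- the energies on small balls -/
theorem en_small (μ : Measure X) {p : ℝ} (x : X) {R ρ : ℝ} (hρ : ρ ≤ R / 2)
    {E : ℝ≥0∞} {g0 g : X → ℝ≥0∞} (hg0 : ∫⁻ y, g0 y ^ p ∂μ ≤ E)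
    (hg : ∀ y ∈ ball x (R / 2), g y = g0 y) : ∫⁻ y in ball x ρ, g y ^ p ∂μ ≤ E := by
  calc ∫⁻ y in ball x ρ, g y ^ p ∂μ = ∫⁻ y in ball x ρ, g0 y ^ p ∂μ := by
        refine setLIntegral_congr_fun measurableSet_ball fun y hy => ?_
        rw [hg y (ball_subset_ball hρ hy)]
    _ ≤ ∫⁻ y, g0 y ^ p ∂μ := setLIntegral_le_lintegral _ _
    _ ≤ E := hg0

theorem ee_small (μ : Measure X) {D : ℝ} (hD : Dbl μ D) {p : ℝ} (hp : 1 < p) (x : X) {R s : ℝ}
    (hs : 0 < s) (m : ℕ) (hR : R = 2 ^ m * s) {Λ : ℝ} (hΛ : 1 ≤ Λ) (hsR : Λ * (2 * s) ≤ R / 2)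
    {t E : ℝ≥0∞}
    (hE : ENNReal.ofReal (R ^ p) * E ≤ t * μ (ball x R)) {g0 g : X → ℝ≥0∞}
    (hg0 : ∫⁻ y, g0 y ^ p ∂μ ≤ E) (hg : ∀ y ∈ ball x (R / 2), g y = g0 y) :
    ee μ p g Λ x (2 * s) ≤ ENNReal.ofReal (D ^ m) * t := by
  have h1 : 2 * s ≤ Λ * (2 * s) := by nlinarith
  unfold ee lav
  refine le_trans ?_ (frac_le μ hD x hs m hR hE (s' := Λ * (2 * s)) (by linarith))
  rw [mul_div_assoc]
  have h2 : (2 * s) ^ p ≤ R ^ p := Real.rpow_le_rpow (by linarith) (by linarith) (by linarith)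
  have h3 := en_small μ x hsR hg0 hg
  gcongr

theorem main {X : Type*} [MetricSpace X] [ProperSpace X] [MeasurableSpace X] [BorelSpace X]
    (μ : Measure X) (p C L D : ℝ) (hD : Dbl μ D) (h : PI μ p C L) (h1 : S_BASIC μ p)
    (h2 : S_PAIR μ p) (h3 : S_CLOSE μ p) (h4 : S_CUT μ p) (h5 : S_LSC μ p) (h6 : S_QE μ p)
    (h7 : S_NEG μ p) (h8 : S_MONO μ p) (h9 : S_SUB μ p) (h10 : S_DENS μ p) (h11 : S_MEAS μ)
    (h12 : S_SOB μ p) (h13 : S_LOCS X) (_h14 : S_WU μ p) : S_KEY μ p := by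
  intro τ hτ0 hτ1
  have hp := h.one_lt
  have hp0 : 0 < p := by linarith
  have hD1 := hD.one_le
  obtain ⟨K0, Λ0, hK0, hΛ0, hB⟩ := h1 τ hτ0
  obtain ⟨Kp, Λp, hKp, hΛp, hP⟩ := h2
  obtain ⟨Kc, hKc, hC⟩ := h3 Kp Λp hKp.le hΛp
  obtain ⟨K2, hK2, hCut⟩ := h4 Kp Λp Kc hKp.le hΛp hKc.le
  obtain ⟨K2', hK2', hCut'⟩ := h4 C L 1 h.nonneg h.one_le zero_le_one
  obtain ⟨KS, hKS, hSob⟩ := h12
  obtain ⟨m, hm⟩ : ∃ m : ℕ, 16 * (1 + 2 * max Λ0 (max Λp L)) < (2 : ℝ) ^ m :=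
    pow_unbounded_of_one_lt _ (by norm_num)
  have hDm : 0 < D ^ m := pow_pos (by linarith) _
  have h16 : (0 : ℝ) < 16 ^ p := by positivity
  set ε1 : ℝ := 1 / 16 / (16 ^ p * (KS * D ^ m)) with hε1
  set ε2 : ℝ := (1 / (2 * K0)) ^ p / D ^ m with hε2
  have hε1p : 0 < ε1 := by positivity
  have hε2p : 0 < ε2 := by positivity
  refine ⟨2 ^ p * (K2 + K2') * D ^ m, min ε1 ε2, m, by positivity, lt_min hε1p hε2p, ?_⟩
  intro V1 V2 hV1 hV2 hdis x
  obtain ⟨r0, hr0, hS⟩ := hSob x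
  obtain ⟨k0, hk0⟩ : ∃ k0 : ℕ, (1 / 2 : ℝ) ^ k0 < r0 :=
    exists_pow_lt_of_lt_one hr0 (by norm_num)
  refine ⟨k0, fun k hk t hat ht => ?_⟩
  set R : ℝ := (1 / 2) ^ k with hRdef
  set s : ℝ := (1 / 2) ^ (k + m) with hsdef
  have hRpos : 0 < R := by positivity
  have hs : 0 < s := by positivity
  have hR : R = 2 ^ m * s := by
    rw [hRdef, hsdef, pow_add]
    have : (2 : ℝ) ^ m * (1 / 2) ^ m = 1 := by rw [← mul_pow]; norm_num
    calc (1 / 2 : ℝ) ^ k = (1 / 2) ^ k * (2 ^ m * (1 / 2) ^ m) := by rw [this, mul_one]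
      _ = _ := by ring
  have hRr0 : R / 2 < r0 := by
    have : R ≤ (1 / 2) ^ k0 := pow_le_pow_of_le_one (by norm_num) (by norm_num) hk
    linarith
  have hΛm : ∀ Λ : ℝ, Λ ≤ max Λ0 (max Λp L) → (1 + 2 * Λ) * (2 * s) ≤ R / 8 := by
    intro Λ hΛ
    have : 16 * (1 + 2 * Λ) * s ≤ 2 ^ m * s := by
      have : 16 * (1 + 2 * Λ) ≤ 2 ^ m := by linarith
      gcongr
    linarith
  have hL0 := hΛm Λ0 (le_max_left _ _)
  have hLp := hΛm Λp ((le_max_left _ _).trans (le_max_right _ _))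
  have hLL := hΛm L ((le_max_right _ _).trans (le_max_right _ _))
  have h2s8 : 2 * s ≤ R / 8 := by nlinarith [h.one_le]
  have hL0' : Λ0 * (2 * s) ≤ R / 2 := by nlinarith
  -- the energy bound
  set E : ℝ≥0∞ := t * μ (ball x R) / ENNReal.ofReal (R ^ p) with hEdef
  have hRp : 0 < R ^ p := Real.rpow_pos_of_pos hRpos _
  have hRp0 : ENNReal.ofReal (R ^ p) ≠ 0 := by
    simpa using hRp
  have hRE : ENNReal.ofReal (R ^ p) * E = t * μ (ball x R) := by
    rw [hEdef, ENNReal.mul_div_cancel hRp0 ENNReal.ofReal_ne_top]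
  have hcap : capB μ p ((V1 ∪ V2)ᶜ ∩ ball x R) x (2 * R) < E := by
    rw [hEdef, ENNReal.lt_div_iff_mul_lt (Or.inl hRp0) (Or.inl ENNReal.ofReal_ne_top)]
    have h20 : aa μ p (V1 ∪ V2)ᶜ x k < t := hat
    unfold aa at h20
    rw [← hRdef] at h20
    rwa [ENNReal.div_lt_iff (Or.inl (hD.pos x R hRpos).ne') (Or.inl (hD.fin x R).ne)] at h20
  obtain ⟨u, phi, g0, g, O, hu, u0, u1, hug, hg0, huv, hphi, p0, p1, hpg, hgp, hO, hO1, hTO,
    heq, hgeq⟩ := setup μ hD hp h5 h13 _ x hRpos E hcap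
  have hSep1 : Sep μ V1 phi g O := sep_of μ h10 h11 hV1 hV2 hdis hphi p0 p1 hpg hO hO1 hTO
  have hSep2 : Sep μ V2 phi g O := sep_of μ h10 h11 hV2 hV1 hdis.symm hphi p0 p1 hpg hO hO1
    (by rw [union_comm]; exact hTO)
  have ht1 : t ≤ ENNReal.ofReal ε1 := ht.trans (ENNReal.ofReal_le_ofReal (min_le_left _ _))
  have ht2 : t ≤ ENNReal.ofReal ε2 := ht.trans (ENNReal.ofReal_le_ofReal (min_le_right _ _))
  have hmphi : mean μ phi x (2 * s) ≤ 1 / 8 := by
    refine mean_phi μ hD hp hKS hε1p x hs m hR h2s8 hRE.le ht1 ?_ u0 hg0.le ?_ hphi p0 p1 heq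
    · rw [hε1]
      refine le_of_eq ?_
      field_simp
    · refine hS (R / 2) (by linarith) hRr0 u g0 hu.aemeasurable u0 u1 hug ?_
      intro y hy
      refine huv y ?_
      rwa [show 2 * R = 4 * (R / 2) by ring]
  have h2s : 0 < 2 * s := by linarith
  refine ⟨fun hAmb => ?_, fun hdens => ?_⟩
  · -- not ambiguous
    have b1 := hB V1 phi g O hSep1 x (2 * s) h2s hAmb
    have b2 := ee_small μ hD hp x hs m hR hΛ0 hL0' hRE.le hg0.le hgeq
    have b3 : ENNReal.ofReal K0 * (ee μ p g Λ0 x (2 * s)) ^ (1 / p) ≤ ENNReal.ofReal (1 / 2) := by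
      have c1 : ee μ p g Λ0 x (2 * s) ≤ ENNReal.ofReal ((1 / (2 * K0)) ^ p) := by
        refine b2.trans ?_
        calc ENNReal.ofReal (D ^ m) * t ≤ ENNReal.ofReal (D ^ m) * ENNReal.ofReal ε2 := by gcongr
          _ = ENNReal.ofReal (D ^ m * ε2) := by rw [ENNReal.ofReal_mul hDm.le]
          _ = ENNReal.ofReal ((1 / (2 * K0)) ^ p) := by
              congr 1
              rw [hε2]
              field_simp
      have c2 : (ee μ p g Λ0 x (2 * s)) ^ (1 / p) ≤ ENNReal.ofReal (1 / (2 * K0)) := by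
        calc (ee μ p g Λ0 x (2 * s)) ^ (1 / p) ≤ (ENNReal.ofReal ((1 / (2 * K0)) ^ p)) ^ (1 / p) :=
              ENNReal.rpow_le_rpow c1 (by positivity)
          _ = ENNReal.ofReal (1 / (2 * K0)) := by
              rw [← ENNReal.ofReal_rpow_of_nonneg (by positivity) hp0.le, ← ENNReal.rpow_mul,
                mul_one_div_cancel hp0.ne', ENNReal.rpow_one]
      calc ENNReal.ofReal K0 * (ee μ p g Λ0 x (2 * s)) ^ (1 / p)
          ≤ ENNReal.ofReal K0 * ENNReal.ofReal (1 / (2 * K0)) := by gcongr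
        _ = ENNReal.ofReal (1 / 2) := by
            rw [← ENNReal.ofReal_mul hK0.le]
            congr 1
            field_simp
    have b4 := (ENNReal.ofReal_le_ofReal_iff (by norm_num)).1 (b1.trans b3)
    linarith
  · -- the capacity estimate
    set v1 : X → ℝ := V1.indicator (fun y => 1 - phi y) with hv1
    set v2 : X → ℝ := V2.indicator (fun y => 1 - phi y) with hv2
    have q0 : ∀ y, 0 ≤ 1 - phi y := fun y => by linarith [p1 y]
    have q1 : ∀ y, 1 - phi y ≤ 1 := fun y => by linarith [p0 y]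
    have hqm : Measurable fun y => 1 - phi y := measurable_const.sub hphi
    have v1m : AEMeasurable v1 μ := hqm.aemeasurable.indicator₀ hSep1.meas
    have v2m : AEMeasurable v2 μ := hqm.aemeasurable.indicator₀ hSep2.meas
    have v10 : ∀ y, 0 ≤ v1 y := fun y => indicator_nonneg (fun y _ => q0 y) y
    have v20 : ∀ y, 0 ≤ v2 y := fun y => indicator_nonneg (fun y _ => q0 y) y
    have v11 : ∀ y, v1 y ≤ 1 := fun y =>
      indicator_apply_le' (fun _ => q1 y) (fun _ => zero_le_one)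
    have v21 : ∀ y, v2 y ≤ 1 := fun y =>
      indicator_apply_le' (fun _ => q1 y) (fun _ => zero_le_one)
    have PP1 := hP V1 phi g O hSep1
    have PP2 := hP V2 phi g O hSep2
    obtain ⟨w1, w1m, w10, w11, w1v, w1u, -⟩ := hC v1 g v1m v10 v11 hpg.1 hgp PP1
    obtain ⟨w2, w2m, w20, w21, w2v, w2u, w2z⟩ := hC v2 g v2m v20 v21 hpg.1 hgp PP2
    have w2zero : ∀ y ∈ V1, w2 y = 0 := by
      intro y hy
      refine w2z y ?_
      refine mean_tendsto μ hD V2 _ hSep2.meas hqm q0 q1 y ?_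
      exact dz_of_subset μ (fun z hz hz1 => disjoint_left.1 hdis hz1 hz) (h10 _ _ (hV1 y hy))
    have vsum : ∀ y, v1 y + v2 y = 1 - phi y := by
      intro y
      by_cases y1 : y ∈ V1
      · have y2 : y ∉ V2 := fun hc => disjoint_left.1 hdis y1 hc
        rw [hv1, hv2, indicator_of_mem y1, indicator_of_notMem y2, add_zero]
      · by_cases y2 : y ∈ V2
        · rw [hv1, hv2, indicator_of_notMem y1, indicator_of_mem y2, zero_add]
        · have yT : y ∈ (V1 ∪ V2)ᶜ := by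
            rintro (hc | hc)
            · exact y1 hc
            · exact y2 hc
          rw [hv1, hv2, indicator_of_notMem y1, indicator_of_notMem y2, hO1 y (hTO yT)]
          norm_num
    set Z : Set X := {y | w1 y + w2 y - (1 - phi y) ≠ 0} with hZ
    have hExc : Exc μ p Z := by
      refine h6 (fun y => w1 y + w2 y - (1 - phi y)) ((w1m.add w2m).sub hqm) ?_
        (fun y => (ENNReal.ofReal Kc * g y + ENNReal.ofReal Kc * g y) + g y)
        (wu_comb μ hp w1u w2u hpg) ?_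
      · filter_upwards [w1v, w2v] with y hy1 hy2
        rw [hy1, hy2, vsum y]
        ring
      · have e : ∀ y, (ENNReal.ofReal Kc * g y + ENNReal.ofReal Kc * g y) + g y =
            (ENNReal.ofReal Kc + ENNReal.ofReal Kc + 1) * g y := fun y => by ring
        have e2 : ENNReal.ofReal Kc + ENNReal.ofReal Kc + 1 ≠ ∞ := by finiteness
        simp only [e, ENNReal.mul_rpow_of_nonneg _ _ hp0.le]
        rw [lintegral_const_mul' _ _ (ENNReal.rpow_ne_top_of_nonneg hp0.le e2)]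
        exact ENNReal.mul_lt_top (ENNReal.rpow_lt_top_of_nonneg hp0.le e2) hgp
    have PPw : PP μ p Kp Λp w1 g := pp_congr μ w1v PP1
    have mw1 : mean μ w1 x (2 * s) ≤ 1 / 8 := by
      rw [mean_congr μ w1v]
      have c1 := mean_le_dens μ hD V1 _ hSep1.meas hqm q0 q1 x (2 * s) h2s
      have c2 : ENNReal.ofReal (mean μ v1 x (2 * s)) ≤ ENNReal.ofReal (1 / 8) :=
        c1.trans (hdens.le.trans (ENNReal.ofReal_le_ofReal hτ1))
      exact (ENNReal.ofReal_le_ofReal_iff (by norm_num)).1 c2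
    have cut1 := hCut w1 g w1m w10 w11 hpg.1 hgp w1u PPw x (2 * s) h2s mw1
    have cut2 := hCut' phi g hphi p0 p1 hpg.1 hgp (by
      have := wu_of_ug μ hp hpg
      simpa using this) (h.poin phi g (li_bdd μ hD phi hphi.aemeasurable p0 p1) hpg)
      x (2 * s) h2s hmphi
    rw [show 2 * s / 2 = s by ring] at cut1 cut2
    have en1 := en_small μ x (ρ := (1 + 2 * Λp) * (2 * s)) (by linarith) hg0.le hgeq
    have en2 := en_small μ x (ρ := (1 + 2 * L) * (2 * s)) (by linarith) hg0.le hgeq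
    have sub : V1 ∩ ball x s ⊆ (({y | 1 / 2 ≤ w1 y} ∪ {y | 1 / 2 ≤ phi y}) ∪ Z) ∩ ball x s := by
      rintro y ⟨hy, hyb⟩
      refine ⟨?_, hyb⟩
      by_cases hyZ : y ∈ Z
      · exact Or.inr hyZ
      · left
        have hyZ' : w1 y + w2 y - (1 - phi y) = 0 := by
          by_contra hc
          exact hyZ hc
        rw [w2zero y hy] at hyZ'
        by_cases hc : 1 / 2 ≤ w1 y
        · exact Or.inl hc
        · right
          push Not at hc
          show 1 / 2 ≤ phi y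
          linarith
    have cap1 : capB μ p (V1 ∩ ball x s) x (2 * s) ≤
        ENNReal.ofReal (2 ^ p * (K2 + K2')) * E := by
      calc capB μ p (V1 ∩ ball x s) x (2 * s)
          ≤ capB μ p ((({y | 1 / 2 ≤ w1 y} ∪ {y | 1 / 2 ≤ phi y}) ∪ Z) ∩ ball x s) x (2 * s) :=
            h8 _ _ x _ _ sub le_rfl
        _ ≤ capB μ p (({y | 1 / 2 ≤ w1 y} ∪ {y | 1 / 2 ≤ phi y}) ∩ ball x s) x (2 * s) :=
            h7 Z hExc _ x s (2 * s) (by linarith)
        _ = capB μ p (({y | 1 / 2 ≤ w1 y} ∩ ball x s) ∪ ({y | 1 / 2 ≤ phi y} ∩ ball x s)) x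
              (2 * s) := by rw [union_inter_distrib_right]
        _ ≤ ENNReal.ofReal (2 ^ p) * (capB μ p ({y | 1 / 2 ≤ w1 y} ∩ ball x s) x (2 * s) +
              capB μ p ({y | 1 / 2 ≤ phi y} ∩ ball x s) x (2 * s)) := h9 _ _ _ _
        _ ≤ ENNReal.ofReal (2 ^ p) * (ENNReal.ofReal K2 * E + ENNReal.ofReal K2' * E) := by
            have c1 := cut1.trans (mul_le_mul_right en1 _)
            have c2 := cut2.trans (mul_le_mul_right en2 _)
            exact mul_le_mul_right (add_le_add c1 c2) _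
        _ = ENNReal.ofReal (2 ^ p * (K2 + K2')) * E := by
            rw [ENNReal.ofReal_mul (by positivity), ENNReal.ofReal_add hK2.le hK2'.le]
            ring
    unfold aa
    rw [← hsdef]
    calc capB μ p (V1 ∩ ball x s) x (2 * s) * ENNReal.ofReal (s ^ p) / μ (ball x s)
        ≤ ENNReal.ofReal (2 ^ p * (K2 + K2')) * E * ENNReal.ofReal (R ^ p) / μ (ball x s) := by
          refine ENNReal.div_le_div_right ?_ _
          have : s ^ p ≤ R ^ p := Real.rpow_le_rpow hs.le (by linarith) hp0.le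
          gcongr
      _ = ENNReal.ofReal (2 ^ p * (K2 + K2')) * (ENNReal.ofReal (R ^ p) * E / μ (ball x s)) := by
          rw [mul_assoc, mul_comm E, mul_div_assoc]
      _ ≤ ENNReal.ofReal (2 ^ p * (K2 + K2')) * (ENNReal.ofReal (D ^ m) * t) := by
          have := frac_le μ hD x hs m hR hRE.le (s' := s) le_rfl
          gcongr
      _ = ENNReal.ofReal (2 ^ p * (K2 + K2') * D ^ m) * t := by
          rw [← mul_assoc, ← ENNReal.ofReal_mul (by positivity)]

end Pool.Agent.W214.FD
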