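import Pool.Agent.W785.FD.Stms

/-!
# FD-KEY: elementary tools
-/

set_option autoImplicit false

open MeasureTheory Metric Set Filter
open scoped ENNReal NNReal Topology

namespace Pool.Agent.W214.FD

open Pool.Agent.W785.FD

universe u
variable {X : Type u} [MetricSpace X] [MeasurableSpace X]

/-- iterated doubling -/
theorem dbl_iter (μ : Measure X) {D : ℝ} (hD : Dbl μ D) (x : X) (r : ℝ) (hr : 0 < r) (n : ℕ) :
    μ (ball x (2 ^ n * r)) ≤ ENNReal.ofReal (D ^ n) * μ (ball x r) := by
  induction n with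
  | zero => simp
  | succ n ih =>
    have h1 := hD.dbl x (2 ^ n * r) (by positivity)
    have h2 : (2 : ℝ) ^ (n + 1) * r = 2 * (2 ^ n * r) := by ring
    rw [h2]
    refine h1.trans ?_
    calc ENNReal.ofReal D * μ (ball x (2 ^ n * r))
        ≤ ENNReal.ofReal D * (ENNReal.ofReal (D ^ n) * μ (ball x r)) := by gcongr
      _ = ENNReal.ofReal (D ^ (n + 1)) * μ (ball x r) := by
        rw [← mul_assoc, ← ENNReal.ofReal_mul (by linarith [hD.one_le]), pow_succ, mul_comm (D ^ n)]

section curves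

variable [BorelSpace X]

theorem int_add (c : Crv X) {f g : X → ℝ≥0∞} (hf : Measurable f) :
    c.int (fun y => f y + g y) = c.int f + c.int g := by
  unfold Crv.int
  exact lintegral_add_left (hf.comp c.lip.continuous.measurable) _

end curves

theorem int_const (c : Crv X) (a : ℝ≥0∞) : c.int (fun _ => a) = a * ENNReal.ofReal c.l := by
  unfold Crv.int
  simp

theorem int_mono (c : Crv X) {f g : X → ℝ≥0∞} (h : ∀ y, f y ≤ g y) : c.int f ≤ c.int g := by
  unfold Crv.int
  exact lintegral_mono fun t => h _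

theorem ug_max [BorelSpace X] {u v : X → ℝ} {g h : X → ℝ≥0∞} (hu : UG u g) (hv : UG v h) :
    UG (fun y => max (u y) (v y)) (fun y => g y + h y) := by
  refine ⟨hu.1.add hv.1, fun c => ?_⟩
  unfold CrvIneq
  rw [int_add c hu.1]
  have h1 := hu.2 c
  have h2 := hv.2 c
  unfold CrvIneq at h1 h2
  have h3 : |max (u (c.γ 0)) (v (c.γ 0)) - max (u (c.γ c.l)) (v (c.γ c.l))| ≤
      |u (c.γ 0) - u (c.γ c.l)| + |v (c.γ 0) - v (c.γ c.l)| := by
    refine (abs_max_sub_max_le_max _ _ _ _).trans ?_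
    refine max_le ?_ ?_
    · have := abs_nonneg (v (c.γ 0) - v (c.γ c.l)); linarith
    · have := abs_nonneg (u (c.γ 0) - u (c.γ c.l)); linarith
  calc ENNReal.ofReal |max (u (c.γ 0)) (v (c.γ 0)) - max (u (c.γ c.l)) (v (c.γ c.l))|
      ≤ ENNReal.ofReal (|u (c.γ 0) - u (c.γ c.l)| + |v (c.γ 0) - v (c.γ c.l)|) :=
        ENNReal.ofReal_le_ofReal h3
    _ = ENNReal.ofReal |u (c.γ 0) - u (c.γ c.l)| + ENNReal.ofReal |v (c.γ 0) - v (c.γ c.l)| :=
        ENNReal.ofReal_add (abs_nonneg _) (abs_nonneg _)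
    _ ≤ c.int g + c.int h := add_le_add h1 h2

/-- the cut-off function `1 - χ` -/
noncomputable def psi (x : X) (R : ℝ) (y : X) : ℝ := min 1 (max 0 (4 / R * dist y x - 2))

/-- its gradient -/
noncomputable def gpsi (x : X) (R : ℝ) : X → ℝ≥0∞ :=
  {y | dist y x ≤ R}.indicator ({y | R / 2 ≤ dist y x}.indicator (fun _ => ENNReal.ofReal (4 / R)))

theorem psi_lip (x : X) {R : ℝ} (hR : 0 < R) (a b : X) :
    |psi x R a - psi x R b| ≤ 4 / R * dist a b := by
  unfold psi
  have h1 : |min 1 (max 0 (4 / R * dist a x - 2)) - min 1 (max 0 (4 / R * dist b x - 2))| ≤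
      |max 0 (4 / R * dist a x - 2) - max 0 (4 / R * dist b x - 2)| := by
    refine (abs_min_sub_min_le_max _ _ _ _).trans ?_
    simp
  have h2 : |max 0 (4 / R * dist a x - 2) - max 0 (4 / R * dist b x - 2)| ≤
      |(4 / R * dist a x - 2) - (4 / R * dist b x - 2)| := by
    refine (abs_max_sub_max_le_max _ _ _ _).trans ?_
    simp
  have h3 : |(4 / R * dist a x - 2) - (4 / R * dist b x - 2)| = 4 / R * |dist a x - dist b x| := by
    have : (4 / R * dist a x - 2) - (4 / R * dist b x - 2) = 4 / R * (dist a x - dist b x) := by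
      ring
    rw [this, abs_mul, abs_of_pos (by positivity)]
  refine (h1.trans h2).trans ?_
  rw [h3]
  have h4 : |dist a x - dist b x| ≤ dist a b := abs_dist_sub_le _ _ _
  gcongr

theorem psi_nonneg (x : X) (R : ℝ) (y : X) : 0 ≤ psi x R y := by
  unfold psi
  exact le_min zero_le_one (le_max_left _ _)

theorem psi_le_one (x : X) (R : ℝ) (y : X) : psi x R y ≤ 1 := min_le_left _ _

theorem psi_zero (x : X) {R : ℝ} (hR : 0 < R) (y : X) (h : dist y x ≤ R / 2) :
    psi x R y = 0 := by
  unfold psi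
  have : 4 / R * dist y x - 2 ≤ 0 := by
    have : 4 / R * dist y x ≤ 4 / R * (R / 2) := by gcongr
    have h2 : 4 / R * (R / 2) = 2 := by field_simp; norm_num
    linarith
  rw [max_eq_left this]
  simp

theorem psi_one (x : X) {R : ℝ} (hR : 0 < R) (y : X) (h : 3 * R / 4 ≤ dist y x) :
    psi x R y = 1 := by
  unfold psi
  have h3 : 1 ≤ 4 / R * dist y x - 2 := by
    have : 4 / R * (3 * R / 4) ≤ 4 / R * dist y x := by gcongr
    have h2 : 4 / R * (3 * R / 4) = 3 := by field_simp
    linarith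
  rw [max_eq_right (by linarith), min_eq_left h3]

variable [BorelSpace X]

theorem psi_cont (x : X) (R : ℝ) : Continuous (psi x R) := by
  unfold psi
  fun_prop

theorem gpsi_le (x : X) (R : ℝ) (y : X) : gpsi x R y ≤ ENNReal.ofReal (4 / R) := by
  unfold gpsi
  refine (indicator_le_self _ _ y).trans ?_
  exact indicator_le_self _ _ y

theorem gpsi_zero (x : X) {R : ℝ} (y : X) (h : dist y x < R / 2) : gpsi x R y = 0 := by
  unfold gpsi
  have : y ∉ {y | R / 2 ≤ dist y x} := by simpa using h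
  by_cases h2 : y ∈ {y | dist y x ≤ R}
  · rw [indicator_of_mem h2, indicator_of_notMem this]
  · rw [indicator_of_notMem h2]

theorem meas_gpsi (x : X) (R : ℝ) : Measurable (gpsi x R) := by
  unfold gpsi
  refine Measurable.indicator (Measurable.indicator measurable_const ?_) ?_
  · exact (isClosed_le continuous_const (by fun_prop)).measurableSet
  · exact (isClosed_le (by fun_prop) continuous_const).measurableSet

theorem ug_psi (h13 : S_LOCS X) (x : X) {R : ℝ} (hR : 0 < R) : UG (psi x R) (gpsi x R) := by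
  have fin : ∀ c : Crv X, ∀ f : X → ℝ≥0∞, (∀ y, f y ≤ ENNReal.ofReal (4 / R)) →
      c.int f < ∞ := by
    intro c f hf
    refine (int_mono c hf).trans_lt ?_
    rw [int_const]
    exact ENNReal.mul_lt_top ENNReal.ofReal_lt_top ENNReal.ofReal_lt_top
  have h0 : UG (psi x R) (fun _ => ENNReal.ofReal (4 / R)) := by
    refine ⟨measurable_const, fun c => ?_⟩
    unfold CrvIneq
    rw [int_const, ← ENNReal.ofReal_mul (by positivity)]
    refine ENNReal.ofReal_le_ofReal ((psi_lip x hR _ _).trans ?_)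
    have h1 : dist (c.γ 0) (c.γ c.l) ≤ c.l := by
      have := c.lip.dist_le_mul 0 c.l
      simp only [NNReal.coe_one, one_mul] at this
      rw [Real.dist_eq, zero_sub, abs_neg, abs_of_nonneg c.nonneg] at this
      exact this
    gcongr
  have m1 : MeasurableSet {y | R / 2 ≤ dist y x} :=
    (isClosed_le continuous_const (by fun_prop)).measurableSet
  have m2 : MeasurableSet {y | dist y x ≤ R} :=
    (isClosed_le (by fun_prop) continuous_const).measurableSet
  have h1 := h13 _ _ h0 (fun c => fin c _ fun y => le_rfl) {y | R / 2 ≤ dist y x} m1 (by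
    intro y hy
    by_contra hc
    simp only [mem_setOf_eq, not_le] at hc
    exact hy (psi_zero x hR y hc.le))
  have h2 : UG (fun y => 1 - psi x R y)
      ({y | R / 2 ≤ dist y x}.indicator (fun _ => ENNReal.ofReal (4 / R))) := by
    refine ⟨h1.1, fun c => ?_⟩
    have := h1.2 c
    unfold CrvIneq at this ⊢
    have e : |(1 - psi x R (c.γ 0)) - (1 - psi x R (c.γ c.l))| =
        |psi x R (c.γ 0) - psi x R (c.γ c.l)| := by
      rw [abs_sub_comm (psi x R (c.γ 0))]
      congr 1
      ring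
    rw [e]
    exact this
  have h3 := h13 _ _ h2 (fun c => fin c _ fun y => indicator_le_self _ _ y)
    {y | dist y x ≤ R} m2 (by
      intro y hy
      by_contra hc
      simp only [mem_setOf_eq, not_le] at hc
      refine hy ?_
      show 1 - psi x R y = 0
      rw [psi_one x hR y (by linarith)]
      ring)
  refine ⟨h3.1, fun c => ?_⟩
  have := h3.2 c
  unfold CrvIneq at this ⊢
  have e : |(1 - psi x R (c.γ 0)) - (1 - psi x R (c.γ c.l))| =
      |psi x R (c.γ 0) - psi x R (c.γ c.l)| := by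
    rw [abs_sub_comm (psi x R (c.γ 0))]
    congr 1
    ring
  rw [e] at this
  exact this

theorem lint_gpsi (μ : Measure X) {D : ℝ} (hD : Dbl μ D) {p : ℝ} (hp : 1 < p) (x : X) {R : ℝ}
    (hR : 0 < R) : ∫⁻ y, gpsi x R y ^ p ∂μ < ∞ := by
  have h1 : ∀ y, gpsi x R y ^ p ≤ (ball x (2 * R)).indicator
      (fun _ => ENNReal.ofReal (4 / R) ^ p) y := by
    intro y
    by_cases h : y ∈ ball x (2 * R)
    · rw [indicator_of_mem h]
      exact ENNReal.rpow_le_rpow (gpsi_le x R y) (by linarith)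
    · rw [indicator_of_notMem h]
      have h2 : y ∉ {y | dist y x ≤ R} := by
        simp only [mem_ball, not_lt] at h
        simp only [mem_setOf_eq, not_le]
        linarith
      unfold gpsi
      rw [indicator_of_notMem h2, ENNReal.zero_rpow_of_pos (by linarith)]
  refine (lintegral_mono h1).trans_lt ?_
  rw [lintegral_indicator measurableSet_ball]
  simp only [lintegral_const, MeasurableSet.univ, Measure.restrict_apply, univ_inter]
  exact ENNReal.mul_lt_top (ENNReal.rpow_lt_top_of_nonneg (by linarith) ENNReal.ofReal_ne_top)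
    (hD.fin _ _)

/-- the competitor `φ` of the key estimate -/
theorem setup (μ : Measure X) {D : ℝ} (hD : Dbl μ D) {p : ℝ} (hp : 1 < p) (h5 : S_LSC μ p)
    (h13 : S_LOCS X) (T : Set X) (x : X) {R : ℝ} (hR : 0 < R) (E : ℝ≥0∞)
    (hcap : capB μ p (T ∩ ball x R) x (2 * R) < E) :
    ∃ (u phi : X → ℝ) (g0 g : X → ℝ≥0∞) (O : Set X), Measurable u ∧ (∀ y, 0 ≤ u y) ∧
      (∀ y, u y ≤ 1) ∧ UG u g0 ∧ ∫⁻ y, g0 y ^ p ∂μ < E ∧ (∀ y, y ∉ ball x (2 * R) → u y = 0) ∧
      Measurable phi ∧ (∀ y, 0 ≤ phi y) ∧ (∀ y, phi y ≤ 1) ∧ UG phi g ∧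
      ∫⁻ y, g y ^ p ∂μ < ∞ ∧ IsOpen O ∧ (∀ y ∈ O, phi y = 1) ∧ T ⊆ O ∧
      (∀ y ∈ ball x (R / 2), phi y = u y) ∧ (∀ y ∈ ball x (R / 2), g y = g0 y) := by
  obtain ⟨u, g0, O0, hu, u0, u1, hug, hg0, hO0, hTO, hO1, huv⟩ :=
    h5 (T ∩ ball x R) x (2 * R) E (by linarith) hcap
  refine ⟨u, fun y => max (u y) (psi x R y), g0, fun y => g0 y + gpsi x R y,
    (O0 ∩ ball x R) ∪ {y | 3 * R / 4 < dist y x}, hu, u0, u1, hug, hg0, huv, ?_, ?_, ?_, ?_, ?_,
    ?_, ?_, ?_, ?_, ?_⟩
  · exact hu.max (psi_cont x R).measurable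
  · intro y
    exact (u0 y).trans (le_max_left _ _)
  · intro y
    exact max_le (u1 y) (psi_le_one x R y)
  · exact ug_max hug (ug_psi h13 x hR)
  · exact ENNReal.lintegral_rpow_add_lt_top_of_lintegral_rpow_lt_top hug.1.aemeasurable
      (hg0.trans_le le_top) (lint_gpsi μ hD hp x hR) hp.le
  · exact (hO0.inter isOpen_ball).union (isOpen_lt continuous_const (by fun_prop))
  · rintro y (hy | hy)
    · show max (u y) (psi x R y) = 1
      rw [hO1 y hy.1, max_eq_left (psi_le_one x R y)]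
    · show max (u y) (psi x R y) = 1
      rw [psi_one x hR y (le_of_lt hy), max_eq_right (u1 y)]
  · intro y hy
    by_cases h : y ∈ ball x R
    · exact Or.inl ⟨hTO ⟨hy, h⟩, h⟩
    · refine Or.inr ?_
      simp only [mem_ball, not_lt] at h
      simp only [mem_setOf_eq]
      linarith
  · intro y hy
    show max (u y) (psi x R y) = u y
    rw [psi_zero x hR y (by simpa using (le_of_lt hy)), max_eq_left (u0 y)]
  · intro y hy
    show g0 y + gpsi x R y = g0 y
    rw [gpsi_zero x y (by simpa using hy), add_zero]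

end Pool.Agent.W214.FD
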