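import Pool.Agent.W214.FD.Tools

/-!
# FD-KEY: means, Poincare pairs, weak upper gradients
-/

set_option autoImplicit false

open MeasureTheory Metric Set Filter
open scoped ENNReal NNReal Topology

namespace Pool.Agent.W214.FD

open Pool.Agent.W785.FD

universe u
variable {X : Type u} [MetricSpace X] [MeasurableSpace X] [BorelSpace X]

theorem li_bdd (μ : Measure X) {D : ℝ} (hD : Dbl μ D) (u : X → ℝ) (hu : AEMeasurable u μ)
    (h0 : ∀ y, 0 ≤ u y) (h1 : ∀ y, u y ≤ 1) : LI μ u := by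
  intro x r
  refine Measure.integrableOn_of_bounded (M := 1) (hD.fin x r).ne hu.aestronglyMeasurable
    (Eventually.of_forall fun y => ?_)
  rw [Real.norm_eq_abs, abs_of_nonneg (h0 y)]
  exact h1 y

theorem ofReal_mean (μ : Measure X) {D : ℝ} (hD : Dbl μ D) (u : X → ℝ) (hu : AEMeasurable u μ)
    (h0 : ∀ y, 0 ≤ u y) (h1 : ∀ y, u y ≤ 1) (x : X) (r : ℝ) (hr : 0 < r) :
    ENNReal.ofReal (mean μ u x r) = lav μ (fun y => ENNReal.ofReal (u y)) x r := by
  unfold mean lav
  have hpos := hD.pos x r hr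
  have hfin := hD.fin x r
  rw [setAverage_eq, smul_eq_mul, ENNReal.ofReal_mul (by positivity),
    ofReal_integral_eq_lintegral_ofReal (li_bdd μ hD u hu h0 h1 x r)
      (Eventually.of_forall fun y => h0 y),
    measureReal_def, ← ENNReal.toReal_inv, ENNReal.ofReal_toReal (ENNReal.inv_ne_top.2 hpos.ne'),
    ENNReal.div_eq_inv_mul]

theorem mean_nonneg (μ : Measure X) (u : X → ℝ) (h0 : ∀ y, 0 ≤ u y) (x : X) (r : ℝ) :
    0 ≤ mean μ u x r := by
  unfold mean
  rw [setAverage_eq, smul_eq_mul]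
  exact mul_nonneg (by positivity) (integral_nonneg h0)

theorem mean_le_dens (μ : Measure X) {D : ℝ} (hD : Dbl μ D) (V : Set X) (f : X → ℝ)
    (hV : NullMeasurableSet V μ) (hf : Measurable f)
    (h0 : ∀ y, 0 ≤ f y) (h1 : ∀ y, f y ≤ 1) (x : X) (r : ℝ) (hr : 0 < r) :
    ENNReal.ofReal (mean μ (V.indicator f) x r) ≤ dens μ V x r := by
  rw [ofReal_mean μ hD (V.indicator f) (hf.aemeasurable.indicator₀ hV)
    (fun y => indicator_nonneg (fun y _ => h0 y) y)
    (fun y => indicator_apply_le' (fun _ => h1 y) (fun _ => zero_le_one)) x r hr]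
  unfold lav dens
  refine ENNReal.div_le_div_right ?_ _
  calc ∫⁻ y in ball x r, ENNReal.ofReal (V.indicator f y) ∂μ
      ≤ ∫⁻ y in ball x r, V.indicator 1 y ∂μ := by
        refine lintegral_mono fun y => ?_
        by_cases hy : y ∈ V
        · simp only [indicator_of_mem hy, Pi.one_apply]
          exact ENNReal.ofReal_le_one.2 (h1 y)
        · simp only [indicator_of_notMem hy]
          simp
    _ ≤ μ.restrict (ball x r) V := lintegral_indicator_one_le _
    _ = μ (V ∩ ball x r) := Measure.restrict_apply' measurableSet_ball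

theorem mean_congr (μ : Measure X) {u v : X → ℝ} (h : u =ᵐ[μ] v) (x : X) (r : ℝ) :
    mean μ u x r = mean μ v x r := by
  unfold mean
  rw [setAverage_eq, setAverage_eq]
  congr 1
  exact integral_congr_ae (ae_restrict_of_ae h)

theorem pp_congr (μ : Measure X) {p K Λ : ℝ} {u v : X → ℝ} {g : X → ℝ≥0∞} (h : u =ᵐ[μ] v)
    (hv : PP μ p K Λ v g) : PP μ p K Λ u g := by
  intro x r hr
  refine le_trans (le_of_eq ?_) (hv x r hr)
  unfold osc lav
  congr 1
  rw [mean_congr μ h]
  refine lintegral_congr_ae (ae_restrict_of_ae ?_)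
  filter_upwards [h] with y hy
  rw [hy]

theorem wu_of_ug (μ : Measure X) {p : ℝ} (hp : 1 < p) {u : X → ℝ} {g : X → ℝ≥0∞} (h : UG u g) :
    WU μ p u g := by
  refine ⟨h.1, fun _ => 0, measurable_const, ?_, fun c => Or.inl (h.2 c)⟩
  simp only [ENNReal.zero_rpow_of_pos (show 0 < p by linarith)]
  simp

theorem wu_comb (μ : Measure X) {p : ℝ} (hp : 1 < p) {w1 w2 phi : X → ℝ} {g1 g2 g : X → ℝ≥0∞}
    (h1 : WU μ p w1 g1) (h2 : WU μ p w2 g2) (h : UG phi g) :
    WU μ p (fun y => w1 y + w2 y - (1 - phi y)) (fun y => (g1 y + g2 y) + g y) := by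
  obtain ⟨m1, e1, me1, fe1, he1⟩ := h1
  obtain ⟨m2, e2, me2, fe2, he2⟩ := h2
  refine ⟨(m1.add m2).add h.1, fun y => e1 y + e2 y, me1.add me2, ?_, fun c => ?_⟩
  · exact ENNReal.lintegral_rpow_add_lt_top_of_lintegral_rpow_lt_top me1.aemeasurable fe1 fe2 hp.le
  · rcases he1 c with a1 | a1
    · rcases he2 c with a2 | a2
      · left
        have a3 := h.2 c
        unfold CrvIneq at a1 a2 a3 ⊢
        have i1 : c.int (fun y => (g1 y + g2 y) + g y) = c.int (fun y => g1 y + g2 y) + c.int g :=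
          int_add c (m1.add m2)
        rw [i1, int_add c m1]
        have key : |(w1 (c.γ 0) + w2 (c.γ 0) - (1 - phi (c.γ 0))) -
            (w1 (c.γ c.l) + w2 (c.γ c.l) - (1 - phi (c.γ c.l)))| ≤
            (|w1 (c.γ 0) - w1 (c.γ c.l)| + |w2 (c.γ 0) - w2 (c.γ c.l)|) +
              |phi (c.γ 0) - phi (c.γ c.l)| := by
          have e : (w1 (c.γ 0) + w2 (c.γ 0) - (1 - phi (c.γ 0))) -
            (w1 (c.γ c.l) + w2 (c.γ c.l) - (1 - phi (c.γ c.l))) =
            ((w1 (c.γ 0) - w1 (c.γ c.l)) + (w2 (c.γ 0) - w2 (c.γ c.l))) +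
              (phi (c.γ 0) - phi (c.γ c.l)) := by ring
          rw [e]
          exact (abs_add_le _ _).trans (add_le_add (abs_add_le _ _) le_rfl)
        refine (ENNReal.ofReal_le_ofReal key).trans ?_
        rw [ENNReal.ofReal_add (by positivity) (abs_nonneg _),
          ENNReal.ofReal_add (abs_nonneg _) (abs_nonneg _)]
        exact add_le_add (add_le_add a1 a2) a3
      · right
        rw [int_add c me1, a2, add_top]
    · right
      rw [int_add c me1, a1, top_add]

theorem dz_of_subset (μ : Measure X) {A B : Set X} (hAB : A ⊆ B) {z : X} (h : DZ μ B z) :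
    DZ μ A z := by
  refine tendsto_of_tendsto_of_tendsto_of_le_of_le tendsto_const_nhds h (fun r => zero_le) ?_
  intro r
  exact ENNReal.div_le_div_right (measure_mono (inter_subset_inter_left _ hAB)) _

theorem sep_of (μ : Measure X) {p : ℝ} (h10 : S_DENS μ p) (h11 : S_MEAS μ) {V1 V2 : Set X}
    (hV1 : FinelyOpen μ p V1) (hV2 : FinelyOpen μ p V2) (hdis : Disjoint V1 V2) {phi : X → ℝ}
    {g : X → ℝ≥0∞} {O : Set X} (hm : Measurable phi) (h0 : ∀ y, 0 ≤ phi y) (h1 : ∀ y, phi y ≤ 1)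
    (hug : UG phi g) (hO : IsOpen O) (hO1 : ∀ y ∈ O, phi y = 1) (hT : (V1 ∪ V2)ᶜ ⊆ O) :
    Sep μ V1 phi g O := by
  refine ⟨h11 V1 fun z hz => h10 _ _ (hV1 z hz), hm, h0, h1, hug, hO, hO1, fun z hz => ?_⟩
  have h2 : z ∈ V1 ∪ V2 := by
    by_contra hc
    exact hz (hT hc)
  rcases h2 with h2 | h2
  · exact Or.inr (h10 _ _ (hV1 z h2))
  · exact Or.inl (dz_of_subset μ (fun y hy hy2 => disjoint_left.1 hdis hy hy2)
      (h10 _ _ (hV2 z h2)))

theorem mean_tendsto (μ : Measure X) {D : ℝ} (hD : Dbl μ D) (V : Set X) (f : X → ℝ)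
    (hV : NullMeasurableSet V μ) (hf : Measurable f)
    (h0 : ∀ y, 0 ≤ f y) (h1 : ∀ y, f y ≤ 1) (y : X) (h : DZ μ V y) :
    Tendsto (fun r => mean μ (V.indicator f) y r) (𝓝[>] 0) (𝓝 0) := by
  have h2 : Tendsto (fun r => (dens μ V y r).toReal) (𝓝[>] 0) (𝓝 0) := by
    have := (ENNReal.tendsto_toReal ENNReal.zero_ne_top).comp h
    rw [ENNReal.toReal_zero] at this
    exact this
  refine squeeze_zero' (Eventually.of_forall fun r => ?_) ?_ h2
  · exact mean_nonneg μ _ (fun z => indicator_nonneg (fun z _ => h0 z) z) _ _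
  · filter_upwards [self_mem_nhdsWithin] with r hr
    have h3 := mean_le_dens μ hD V f hV hf h0 h1 y r hr
    have h4 : dens μ V y r ≠ ∞ := by
      unfold dens
      exact ENNReal.div_ne_top ((measure_mono inter_subset_right).trans_lt (hD.fin y r)).ne
        (hD.pos y r hr).ne'
    have h5 := ENNReal.toReal_mono h4 h3
    rwa [ENNReal.toReal_ofReal
      (mean_nonneg μ _ (fun z => indicator_nonneg (fun z _ => h0 z) z) _ _)] at h5

/-- smallness of the mean from smallness of the `p`-mean -/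
theorem lav_small (μ : Measure X) {D : ℝ} (hD : Dbl μ D) {p : ℝ} (hp : 1 < p) (u : X → ℝ)
    (h0 : ∀ y, 0 ≤ u y) (x : X) (r : ℝ) (hr : 0 < r) :
    lav μ (fun y => ENNReal.ofReal (u y)) x r ≤ ENNReal.ofReal (1 / 16) +
      ENNReal.ofReal (16 ^ p) * ((∫⁻ y, (ENNReal.ofReal (u y)) ^ p ∂μ) / μ (ball x r)) := by
  have h1 : ∀ y, ENNReal.ofReal (u y) ≤ ENNReal.ofReal (1 / 16) +
      ENNReal.ofReal (16 ^ p) * (ENNReal.ofReal (u y)) ^ p := by
    intro y
    rw [ENNReal.ofReal_rpow_of_nonneg (h0 y) (by linarith), ← ENNReal.ofReal_mul (by positivity),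
      ← ENNReal.ofReal_add (by norm_num) (mul_nonneg (by positivity)
        (Real.rpow_nonneg (h0 y) _))]
    refine ENNReal.ofReal_le_ofReal ?_
    rw [← Real.mul_rpow (by norm_num) (h0 y)]
    by_cases h : u y ≤ 1 / 16
    · have : 0 ≤ (16 * u y) ^ p := Real.rpow_nonneg (mul_nonneg (by norm_num) (h0 y)) _
      linarith
    · push Not at h
      have h2 : 1 ≤ 16 * u y := by linarith
      have h3 : (16 * u y) ^ (1 : ℝ) ≤ (16 * u y) ^ p :=
        Real.rpow_le_rpow_of_exponent_le h2 hp.le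
      rw [Real.rpow_one] at h3
      linarith [h0 y]
  have hpos := hD.pos x r hr
  have hfin := hD.fin x r
  unfold lav
  calc (∫⁻ y in ball x r, ENNReal.ofReal (u y) ∂μ) / μ (ball x r)
      ≤ (∫⁻ y in ball x r, (ENNReal.ofReal (1 / 16) +
        ENNReal.ofReal (16 ^ p) * (ENNReal.ofReal (u y)) ^ p) ∂μ) / μ (ball x r) :=
        ENNReal.div_le_div_right (lintegral_mono h1) _
    _ = (ENNReal.ofReal (1 / 16) * μ (ball x r) +
        ENNReal.ofReal (16 ^ p) * ∫⁻ y in ball x r, (ENNReal.ofReal (u y)) ^ p ∂μ) /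
          μ (ball x r) := by
        congr 1
        rw [lintegral_add_left measurable_const, lintegral_const_mul' _ _ ENNReal.ofReal_ne_top]
        simp
    _ = ENNReal.ofReal (1 / 16) + ENNReal.ofReal (16 ^ p) *
        ((∫⁻ y in ball x r, (ENNReal.ofReal (u y)) ^ p ∂μ) / μ (ball x r)) := by
        rw [ENNReal.add_div, ENNReal.mul_div_cancel_right hpos.ne' hfin.ne, mul_div_assoc]
    _ ≤ _ := by
        exact add_le_add le_rfl (mul_le_mul_right
          (ENNReal.div_le_div_right (setLIntegral_le_lintegral _ _) _) _)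

end Pool.Agent.W214.FD
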